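import Pool.Agent.helper32.EX.SpecA

set_option autoImplicit false

namespace Pool.Agent.EX

/-- the property of `w` in WPR -/
def WPR_P {n : ℕ} (C : Matrix (Fin n) (Fin n) ℤ) (w : Equiv.Perm (Rt C)) : Prop :=
  (∀ α β : Rt C, Q C (w α).1 (w β).1 = Q C α.1 β.1) ∧ (∀ α : Rt C, w (-α) = -(w α)) ∧
  (∀ α β γ : Rt C, γ.1 = α.1 + β.1 → (w γ).1 = (w α).1 + (w β).1)

theorem WPR_rfe {n : ℕ} (C : Matrix (Fin n) (Fin n) ℤ) [Fact (Dyn C)] (δ : Rt C) : WPR_P C (rfe δ) := by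
  refine ⟨fun α β => ?_, fun α => ?_, fun α β γ h => ?_⟩
  · change Q C (α.1 - Q C δ.1 α.1 • δ.1) (β.1 - Q C δ.1 β.1 • δ.1) = _
    rw [Q_sub_left, Q_sub_right, Q_sub_right, Q_smul_left, Q_smul_left, Q_smul_right, Q_smul_right, δ.2, Q_comm α.1 δ.1]
    ring
  · apply Subtype.ext
    change -α.1 - Q C δ.1 (-α.1) • δ.1 = -(α.1 - Q C δ.1 α.1 • δ.1)
    rw [Q_neg_right]
    module
  · change γ.1 - Q C δ.1 γ.1 • δ.1 = (α.1 - Q C δ.1 α.1 • δ.1) + (β.1 - Q C δ.1 β.1 • δ.1)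
    rw [h, Q_add_right]
    module

theorem WPR : WPR_stmt := by
  intro n C _ w hw
  have key : ∀ w ∈ W C, WPR_P C w := by
    intro w hw
    unfold W at hw
    induction hw using Subgroup.closure_induction with
    | mem x hx =>
      obtain ⟨i, rfl⟩ := hx
      exact WPR_rfe C _
    | one => exact ⟨fun _ _ => rfl, fun _ => rfl, fun _ _ _ h => h⟩
    | mul x y _ _ hx hy =>
      refine ⟨fun α β => ?_, fun α => ?_, fun α β γ h => ?_⟩
      · change Q C (x (y α)).1 (x (y β)).1 = _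
        rw [hx.1, hy.1]
      · change x (y (-α)) = -(x (y α))
        rw [hy.2.1, hx.2.1]
      · exact hx.2.2 _ _ _ (hy.2.2 _ _ _ h)
    | inv x _ hx =>
      refine ⟨fun α β => ?_, fun α => ?_, fun α β γ h => ?_⟩
      · rw [← hx.1 (x⁻¹ α) (x⁻¹ β)]
        simp
      · apply x.injective
        rw [hx.2.1]
        simp
      · have h1 : Q C ((x⁻¹ α).1 + (x⁻¹ β).1) ((x⁻¹ α).1 + (x⁻¹ β).1) = 2 := by
          have h2 : Q C (x⁻¹ α).1 (x⁻¹ β).1 = Q C α.1 β.1 := by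
            rw [← hx.1 (x⁻¹ α) (x⁻¹ β)]
            simp
          have h3 := γ.2
          rw [h, Q_add_left, Q_add_right, Q_add_right, α.2, β.2, Q_comm β.1 α.1] at h3
          rw [Q_add_left, Q_add_right, Q_add_right, (x⁻¹ α).2, (x⁻¹ β).2, Q_comm (x⁻¹ β).1 (x⁻¹ α).1, h2]
          exact h3
        have h4 : x ⟨(x⁻¹ α).1 + (x⁻¹ β).1, h1⟩ = γ := by
          apply Subtype.ext
          rw [hx.2.2 (x⁻¹ α) (x⁻¹ β) ⟨_, h1⟩ rfl, h]
          simp
        have h5 : x⁻¹ γ = ⟨(x⁻¹ α).1 + (x⁻¹ β).1, h1⟩ := by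
          rw [← h4]
          simp
        rw [h5]
  exact key w hw

end Pool.Agent.EX
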